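import Pool.Agent.Helper49.LC.St

/-!
# Project LC (MP_58b586_gt): module COM (the sum of two knots: position, scale, commutativity)
-/

set_option autoImplicit false

open scoped ContDiff

namespace Pool.Agent.Helper8.LC

open Pool.Agent.Helper14.LK Pool.Agent.Helper49.LC

/-- three moves along a segment which avoids the origin -/
private lemma seg (hMOV : StMOV) (hEQV : StEQV) {n : ℕ} (hn : 2 ≤ n) {α β : EE n → WW n} {R R' : ℝ}
    (hα : Kn α 0 R) (hβ : Kn β 0 R') {a a' : EE n} {s s' : ℝ} (hs : 0 < s) (hs' : 0 < s')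
    (ha : R + s * R' < ‖a‖) (ha' : R + s' * R' < ‖a'‖)
    (hseg : ∀ t ∈ Set.Icc (0 : ℝ) 1, (1 - t) • a + t • a' ≠ 0) :
    Eq1 (Set.range (su α (pc a s β))) (Set.range (su α (pc a' s' β))) := by
  have hR := hα.pos
  have hR' := hβ.pos
  obtain ⟨-, -, -, htr, -⟩ := hEQV
  have hcont : ContinuousOn (fun t : ℝ => ‖(1 - t) • a + t • a'‖) (Set.Icc (0 : ℝ) 1) := by
    apply Continuous.continuousOn
    fun_prop
  obtain ⟨t₀, ht₀, hmin⟩ := isCompact_Icc.exists_isMinOn (Set.nonempty_Icc.2 (zero_le_one (α := ℝ))) hcont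
  obtain ⟨m, hm⟩ : ∃ m : ℝ, m = ‖(1 - t₀) • a + t₀ • a'‖ := ⟨_, rfl⟩
  have hm0 : 0 < m := by
    rw [hm]
    exact norm_pos_iff.2 (hseg t₀ ht₀)
  have hmm : ∀ t ∈ Set.Icc (0 : ℝ) 1, m ≤ ‖(1 - t) • a + t • a'‖ := by
    intro t ht
    rw [hm]
    exact hmin ht
  obtain ⟨K, hK⟩ : ∃ K : ℝ, K = (R + (s + s') * R') / m + 1 := ⟨_, rfl⟩
  have hpos : 0 < R + (s + s') * R' := by positivity
  have hK1 : 1 ≤ K := by
    rw [hK]
    have : 0 < (R + (s + s') * R') / m := div_pos hpos hm0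
    linarith
  have hKm : R + (s + s') * R' < K * m := by
    have h1 : K * m = R + (s + s') * R' + m := by
      rw [hK, add_mul ((R + (s + s') * R') / m) 1 m, div_mul_cancel₀ _ hm0.ne', one_mul]
    linarith
  have hlin : ∀ b : EE n, ∀ t ∈ Set.Icc (0 : ℝ) 1, ‖b‖ ≤ ‖(1 - t) • b + t • (K • b)‖ := by
    intro b t ht
    have e : (1 - t) • b + t • (K • b) = ((1 - t) + t * K) • b := by
      rw [add_smul, mul_smul]
    have h1 : 1 ≤ (1 - t) + t * K := by nlinarith [ht.1]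
    rw [e, norm_smul, Real.norm_eq_abs, abs_of_pos (by linarith)]
    nlinarith [norm_nonneg b]
  have m1 := hMOV n hn α β R R' hα hβ a (K • a) s s hs hs (by
    intro t ht
    have h1 := hlin a t ht
    have h2 : (1 - t) * s + t * s = s := by ring
    rw [h2]
    linarith)
  have m2 := hMOV n hn α β R R' hα hβ (K • a) (K • a') s s' hs hs' (by
    intro t ht
    have e : (1 - t) • (K • a) + t • (K • a') = K • ((1 - t) • a + t • a') := by
      rw [smul_add, smul_comm (1 - t) K a, smul_comm t K a']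
    rw [e, norm_smul, Real.norm_eq_abs, abs_of_pos (by linarith)]
    have h1 := hmm t ht
    have h2 : K * m ≤ K * ‖(1 - t) • a + t • a'‖ := mul_le_mul_of_nonneg_left h1 (by linarith)
    have h3 : (1 - t) * s + t * s' ≤ s + s' := by nlinarith [ht.1, ht.2]
    have h4 : ((1 - t) * s + t * s') * R' ≤ (s + s') * R' := mul_le_mul_of_nonneg_right h3 hR'.le
    linarith)
  have m3 := hMOV n hn α β R R' hα hβ (K • a') a' s' s' hs' hs' (by
    intro t ht
    have h1 := hlin a' (1 - t) ⟨by linarith [ht.2], by linarith [ht.1]⟩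
    have h2 : (1 - t) * s' + t * s' = s' := by ring
    have h3 : (1 - (1 - t)) • a' + (1 - t) • (K • a') = (1 - t) • (K • a') + t • a' := by
      rw [sub_sub_cancel, add_comm]
    rw [h3] at h1
    rw [h2]
    linarith)
  exact htr n _ _ _ (htr n _ _ _ m1 m2) m3

/-- a vector orthogonal to a given one -/
private lemma orth {n : ℕ} (hn : 2 ≤ n) (a : EE n) : ∃ v : EE n, v ≠ 0 ∧ inner ℝ a v = 0 := by
  have h : LinearMap.ker (innerSL ℝ a : EE n →L[ℝ] ℝ).toLinearMap ≠ ⊥ := by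
    apply LinearMap.ker_ne_bot_of_finrank_lt
    rw [finrank_euclideanSpace_fin, Module.finrank_self]
    omega
  obtain ⟨v, hv, hv0⟩ := Submodule.exists_mem_ne_zero_of_ne_bot h
  exact ⟨v, hv0, hv⟩

/-- the position and the scale of the second summand do not matter -/
private lemma move (hMOV : StMOV) (hEQV : StEQV) {n : ℕ} (hn : 2 ≤ n) {α β : EE n → WW n} {R R' : ℝ}
    (hα : Kn α 0 R) (hβ : Kn β 0 R') {a a' : EE n} {s s' : ℝ} (hs : 0 < s) (hs' : 0 < s')
    (ha : R + s * R' < ‖a‖) (ha' : R + s' * R' < ‖a'‖) :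
    Eq1 (Set.range (su α (pc a s β))) (Set.range (su α (pc a' s' β))) := by
  have hR := hα.pos
  have hR' := hβ.pos
  by_cases hseg : ∀ t ∈ Set.Icc (0 : ℝ) 1, (1 - t) • a + t • a' ≠ 0
  · exact seg hMOV hEQV hn hα hβ hs hs' ha ha' hseg
  · push Not at hseg
    obtain ⟨t, ht, hta⟩ := hseg
    have hp1 : 0 < s * R' := mul_pos hs hR'
    have hp2 : 0 < s' * R' := mul_pos hs' hR'
    have ha0 : a ≠ 0 := by
      rw [← norm_pos_iff]
      linarith
    have ha0' : a' ≠ 0 := by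
      rw [← norm_pos_iff]
      linarith
    obtain ⟨v, hv0, hv⟩ := orth hn a
    have hvn : 0 < ‖v‖ := norm_pos_iff.2 hv0
    -- `v` is also orthogonal to `a'`
    have hv' : inner ℝ a' v = 0 := by
      have h1 : inner ℝ ((1 - t) • a + t • a') v = 0 := by
        rw [hta, inner_zero_left]
      rw [inner_add_left, inner_smul_left, inner_smul_left, hv, mul_zero, zero_add] at h1
      have ht0 : t ≠ 0 := by
        intro h0
        rw [h0, sub_zero, one_smul, zero_smul, add_zero] at hta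
        exact ha0 hta
      rcases mul_eq_zero.1 h1 with h | h
      · exact absurd h (by simpa using ht0)
      · exact h
    obtain ⟨M, hM⟩ : ∃ M : ℝ, M = (R + s * R' + 1) / ‖v‖ := ⟨_, rfl⟩
    have hM0 : 0 < M := by
      rw [hM]
      exact div_pos (by linarith) hvn
    have hMv : ‖M • v‖ = R + s * R' + 1 := by
      rw [norm_smul, Real.norm_eq_abs, abs_of_pos hM0, hM, div_mul_cancel₀ _ hvn.ne']
    have hMv0 : M • v ≠ 0 := smul_ne_zero hM0.ne' hv0
    have hgen : ∀ b : EE n, b ≠ 0 → inner ℝ b v = 0 → ∀ r ∈ Set.Icc (0 : ℝ) 1,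
        (1 - r) • b + r • (M • v) ≠ 0 := by
      intro b hb hbv r hr h0
      have h1 : inner ℝ b ((1 - r) • b + r • (M • v)) = 0 := by
        rw [h0, inner_zero_right]
      rw [inner_add_right, inner_smul_right, inner_smul_right, inner_smul_right, hbv, mul_zero, mul_zero,
        add_zero] at h1
      rcases mul_eq_zero.1 h1 with h | h
      · have hr1 : r = 1 := by linarith
        rw [hr1, sub_self, zero_smul, one_smul, zero_add] at h0
        exact hMv0 h0
      · exact hb (inner_self_eq_zero.1 h)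
    have m1 := seg hMOV hEQV hn hα hβ hs hs ha (by rw [hMv]; linarith) (hgen a ha0 hv)
    have m2 := seg hMOV hEQV hn hα hβ (a := M • v) (a' := a') hs hs' (by rw [hMv]; linarith) ha' (by
      intro r hr h0
      refine hgen a' ha0' hv' (1 - r) ⟨by linarith [hr.2], by linarith [hr.1]⟩ ?_
      rw [sub_sub_cancel, add_comm]
      exact h0)
    exact hEQV.2.2.2.1 n _ _ _ m1 m2

private lemma plane_tm {n : ℕ} (b : EE n) {r : ℝ} (hr : 0 < r) : tm b r '' Plane n = Plane n := by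
  ext w
  constructor
  · rintro ⟨x, hx, rfl⟩
    have hx2 : x.2 = 0 := hx
    show (tm b r x).2 = 0
    unfold tm
    rw [Prod.snd_add, Prod.smul_snd, hx2, smul_zero, add_zero]
  · intro hw
    have hw2 : w.2 = 0 := hw
    refine ⟨r⁻¹ • (w - (b, 0)), ?_, ?_⟩
    · show (r⁻¹ • (w - (b, 0))).2 = 0
      rw [Prod.smul_snd, Prod.snd_sub, hw2, sub_zero, smul_zero]
    · unfold tm
      rw [smul_smul, mul_inv_cancel₀ hr.ne', one_smul, add_sub_cancel]

private lemma flip {n : ℕ} (α β : EE n → WW n) (a : EE n) {s : ℝ} (hs : 0 < s) :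
    tm (-(s⁻¹ • a)) s⁻¹ '' Set.range (su α (pc a s β)) = Set.range (su β (pc (-(s⁻¹ • a)) s⁻¹ α)) := by
  have key : ∀ x, tm (-(s⁻¹ • a)) s⁻¹ (su α (pc a s β) x) =
      su β (pc (-(s⁻¹ • a)) s⁻¹ α) (s⁻¹ • (x - a)) := by
    intro x
    have e1 : (s⁻¹)⁻¹ • (s⁻¹ • (x - a) - -(s⁻¹ • a)) = x := by
      rw [inv_inv, sub_neg_eq_add, smul_add, smul_smul, smul_smul, mul_inv_cancel₀ hs.ne', one_smul, one_smul,
        sub_add_cancel]
    unfold tm su pc
    rw [e1]
    have e2 : s⁻¹ • s • β (s⁻¹ • (x - a)) = β (s⁻¹ • (x - a)) := by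
      rw [smul_smul, inv_mul_cancel₀ hs.ne', one_smul]
    rw [smul_sub, smul_add, smul_add, e2]
    refine Prod.ext ?_ ?_
    · simp only [Prod.fst_add, Prod.fst_sub, Prod.smul_fst]
      rw [smul_sub]
      abel
    · simp only [Prod.snd_add, Prod.snd_sub, Prod.smul_snd]
      simp only [smul_zero]
      abel
  ext w
  constructor
  · rintro ⟨-, ⟨x, rfl⟩, rfl⟩
    exact ⟨_, (key x).symm⟩
  · rintro ⟨y, rfl⟩
    refine ⟨_, ⟨s • y + a, rfl⟩, ?_⟩
    rw [key]
    congr 1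
    rw [add_sub_cancel_right, smul_smul, inv_mul_cancel₀ hs.ne', one_smul]

theorem hCOM (hMOV : StMOV) (hKNB : StKNB) (hEQV : StEQV) : StCOM := by
  have _ := hKNB
  intro n hn α β R R' hα hβ a s hs ha hE a' s' hs'
  have hR := hα.pos
  have hR' := hβ.pos
  refine ⟨fun h => hEQV.2.2.2.1 n _ _ _ hE (move hMOV hEQV hn hα hβ hs hs' ha h), fun h => ?_⟩
  have hsi : 0 < s⁻¹ := inv_pos.2 hs
  have h5 := hEQV.2.2.2.2.1 n _ _ (-(s⁻¹ • a)) s⁻¹ hsi hE
  rw [plane_tm _ hsi, flip α β a hs] at h5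
  have hb : R' + s⁻¹ * R < ‖-(s⁻¹ • a)‖ := by
    rw [norm_neg, norm_smul, Real.norm_eq_abs, abs_of_pos hsi]
    have h1 : s⁻¹ * (R + s * R') < s⁻¹ * ‖a‖ := mul_lt_mul_of_pos_left ha hsi
    have h2 : s⁻¹ * (R + s * R') = R' + s⁻¹ * R := by
      rw [mul_add, ← mul_assoc, inv_mul_cancel₀ hs.ne', one_mul, add_comm]
    linarith
  exact hEQV.2.2.2.1 n _ _ _ h5 (move hMOV hEQV hn hβ hα hsi hs' hb h)

end Pool.Agent.Helper8.LC
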